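import Pool.Agent.H23.DGameProof

open Pool.Agent.H23.DGame

theorem Pool.Agent.Results.MP_2ce84e_co.NoFormula.result :
    ∃ (n₁ n₂ m₁ m₂ : ℕ) (G₁ : SimpleGraph (Fin n₁)) (G₂ : SimpleGraph (Fin n₂))
      (H₁ : SimpleGraph (Fin m₁)) (H₂ : SimpleGraph (Fin m₂)),
      0 < n₁ ∧ 0 < n₂ ∧ 0 < m₁ ∧ 0 < m₂ ∧
      gameDom G₁ true = gameDom H₁ true ∧ gameDom G₁ false = gameDom H₁ false ∧
      gameDom G₂ true = gameDom H₂ true ∧ gameDom G₂ false = gameDom H₂ false ∧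
      gameDom (G₁.sum G₂) true ≠ gameDom (H₁.sum H₂) true ∧
      gameDom (G₁.sum G₂) false ≠ gameDom (H₁.sum H₂) false :=
  ⟨3, 2, 6, 2, K3, K2, T2, K2, by norm_num, by norm_num, by norm_num, by norm_num,
    by rw [k3A, t2A], by rw [k3B, t2B], rfl, rfl, by rw [s1A, s2A]; norm_num,
    by rw [s1B, s2B]; norm_num⟩
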